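import Pool.Agent.H93.BD.Targets
import Pool.Agent.H93.BD.Targets2

/-!
# HO2: Hoelder's inequality for the multilinear quantity
-/

set_option autoImplicit false

namespace Pool.Agent.H69.BD

open MeasureTheory
open scoped ENNReal NNReal
open Pool.Agent.H93.BD

theorem measurable_gw (m N : ℕ) (r1 r2 : ℝ) (c : E m) : Measurable (gw m N r1 r2 c) := by
  unfold gw
  refine Measurable.ennreal_ofReal ?_
  have h1 : Measurable fun x : X m => (1 + ‖x.1 + (2 * x.2) • c‖ / r1) ^ N := by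
    apply Continuous.measurable
    fun_prop
  have h2 : Measurable fun x : X m => (1 + |x.2| / r2) ^ N := by
    apply Continuous.measurable
    fun_prop
  exact (h1.inv.const_mul _).mul h2.inv

theorem measurable_kw (m : ℕ) (R : ℝ) : Measurable (kw m R) := measurable_gw _ _ _ _ _

/-- Hoelder for finite sums -/
theorem sum_holder {ι : Type} (s : Finset ι) (a b : ι → ℝ≥0∞) {κ : ℝ} (h0 : 0 < κ) (h1 : κ < 1) :
    ∑ i ∈ s, a i ^ (1 - κ) * b i ^ κ ≤ (∑ i ∈ s, a i) ^ (1 - κ) * (∑ i ∈ s, b i) ^ κ := by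
  have h1' : 0 < 1 - κ := by linarith
  have hc : (1 / (1 - κ)).HolderConjugate (1 / κ) := by
    rw [Real.holderConjugate_iff]
    refine ⟨?_, ?_⟩
    · rw [lt_div_iff₀ h1']
      linarith
    · rw [one_div, one_div, inv_inv, inv_inv]
      ring
  have h := ENNReal.inner_le_Lp_mul_Lq s (fun i => a i ^ (1 - κ)) (fun i => b i ^ κ) hc
  refine h.trans (le_of_eq ?_)
  have e1 : ∀ i, (a i ^ (1 - κ)) ^ (1 / (1 - κ)) = a i := by
    intro i
    rw [← ENNReal.rpow_mul, mul_one_div_cancel h1'.ne', ENNReal.rpow_one]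
  have e2 : ∀ i, (b i ^ κ) ^ (1 / κ) = b i := by
    intro i
    rw [← ENNReal.rpow_mul, mul_one_div_cancel h0.ne', ENNReal.rpow_one]
  simp only [e1, e2, one_div_one_div]

/-- Hoelder for the convolution -/
theorem cv_holder (m : ℕ) {p q κ : ℝ} (hq : 2 ≤ q) (hp : q ≤ p) (h0 : 0 < κ) (h1 : κ < 1)
    (hk : 1 / q = (1 - κ) / 2 + κ / p) (R : ℝ) (f : X m → ℂ) (hf : Continuous f) (x : X m) :
    (cv (fun z => ‖f z‖ₑ ^ q) (kw m R) x) ^ (2 / q) ≤
      ((cv (fun z => ‖f z‖ₑ ^ (2 : ℝ)) (kw m R) x) ^ ((2 : ℝ) / 2)) ^ (1 - κ) *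
        ((cv (fun z => ‖f z‖ₑ ^ p) (kw m R) x) ^ (2 / p)) ^ κ := by
  have hq0 : 0 < q := by linarith
  have hp0 : 0 < p := by linarith
  set t1 : ℝ := q * (1 - κ) / 2 with ht1
  set t2 : ℝ := q * κ / p with ht2
  have ht1' : 0 ≤ t1 := by
    rw [ht1]
    have : 0 ≤ 1 - κ := by linarith
    positivity
  have ht2' : 0 ≤ t2 := by positivity
  have hsum : t1 + t2 = 1 := by
    have h2 : q * (1 / q) = 1 := mul_one_div_cancel hq0.ne'
    rw [hk] at h2
    rw [ht1, ht2]
    linear_combination h2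
  have hmf : Measurable fun z => ‖f z‖ₑ := hf.measurable.enorm
  have hmk : Measurable fun z : X m => kw m R (x - z) :=
    (measurable_kw m R).comp (measurable_const.sub measurable_id)
  have h2 : cv (fun z => ‖f z‖ₑ ^ q) (kw m R) x ≤
      (cv (fun z => ‖f z‖ₑ ^ (2 : ℝ)) (kw m R) x) ^ t1 *
        (cv (fun z => ‖f z‖ₑ ^ p) (kw m R) x) ^ t2 := by
    unfold cv
    have h3 := ENNReal.lintegral_mul_norm_pow_le
      (μ := (volume : Measure (X m)))
      (f := fun z => ‖f z‖ₑ ^ (2 : ℝ) * kw m R (x - z))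
      (g := fun z => ‖f z‖ₑ ^ p * kw m R (x - z))
      ((hmf.pow_const _).mul hmk).aemeasurable ((hmf.pow_const _).mul hmk).aemeasurable
      ht1' ht2' hsum
    refine le_trans (le_of_eq ?_) h3
    refine lintegral_congr fun z => ?_
    simp only
    rw [ENNReal.mul_rpow_of_nonneg _ _ ht1', ENNReal.mul_rpow_of_nonneg _ _ ht2',
      ← ENNReal.rpow_mul, ← ENNReal.rpow_mul]
    have e1 : ‖f z‖ₑ ^ q = ‖f z‖ₑ ^ (2 * t1) * ‖f z‖ₑ ^ (p * t2) := by
      rw [← ENNReal.rpow_add_of_nonneg _ _ (by positivity) (by positivity)]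
      congr 1
      rw [ht1, ht2]
      field_simp
      ring
    have e2 : kw m R (x - z) = kw m R (x - z) ^ t1 * kw m R (x - z) ^ t2 := by
      rw [← ENNReal.rpow_add_of_nonneg _ _ ht1' ht2', hsum, ENNReal.rpow_one]
    rw [e1]
    nth_rewrite 1 [e2]
    ring
  have h4 : 0 ≤ 2 / q := by positivity
  refine (ENNReal.rpow_le_rpow h2 h4).trans (le_of_eq ?_)
  rw [ENNReal.mul_rpow_of_nonneg _ _ h4, ← ENNReal.rpow_mul, ← ENNReal.rpow_mul,
    ← ENNReal.rpow_mul, ← ENNReal.rpow_mul]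
  congr 2
  · rw [ht1]
    field_simp
  · rw [ht2]
    field_simp

theorem prod_rpow_fin {ι : Type} (s : Finset ι) (a : ι → ℝ≥0∞) {r : ℝ} (hr : 0 ≤ r) :
    ∏ i ∈ s, a i ^ r = (∏ i ∈ s, a i) ^ r := by
  classical
  induction s using Finset.induction_on with
  | empty => simp
  | insert i s hi ih => rw [Finset.prod_insert hi, Finset.prod_insert hi, ih,
      ENNReal.mul_rpow_of_nonneg _ _ hr]

theorem pf_HO2 (hCVA : T_CVA) : T_HO2 := by
  classical
  intro m p q κ hq hp h0 h1 hk R hR I f hf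
  have hq0 : 0 < q := by linarith
  have hp0 : 0 < p := by linarith
  rcases h0.eq_or_lt with h0' | h0'
  · -- `κ = 0`
    subst h0'
    have hq2 : q = 2 := by
      rw [sub_zero, zero_div, add_zero] at hk
      have h3 : (1 : ℝ) / q = 1 / 2 := hk
      field_simp at h3
      linarith
    rw [hq2, sub_zero, ENNReal.rpow_one, ENNReal.rpow_zero, mul_one]
  rcases h1.eq_or_lt with h1' | h1'
  · subst h1'
    have hqp : q = p := by
      rw [sub_self, zero_div, zero_add] at hk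
      field_simp at hk
      linarith
    rw [hqp, sub_self, ENNReal.rpow_one, ENNReal.rpow_zero, one_mul]
  set e : ℝ := p / (2 * (m + 1)) with he
  have he0 : 0 ≤ e := by positivity
  have h1k : 0 ≤ 1 - κ := by linarith
  -- the sums
  set Sq : ℝ → X m → Fin (m + 1) → ℝ≥0∞ := fun r x i =>
    ∑ α ∈ I i, (cv (fun z => ‖f α z‖ₑ ^ r) (kw m R) x) ^ (2 / r) with hSq
  have hsum : ∀ x i, Sq q x i ≤ (Sq 2 x i) ^ (1 - κ) * (Sq p x i) ^ κ := by
    intro x i
    refine le_trans ?_ (sum_holder (I i) _ _ h0' h1')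
    exact Finset.sum_le_sum fun α hα => cv_holder m hq hp h0' h1' hk R (f α) (hf i α hα) x
  have hmeas : ∀ r : ℝ, Measurable fun x => ∏ i, (Sq r x i) ^ e := by
    intro r
    refine Finset.measurable_prod _ fun i _ => Measurable.pow_const ?_ _
    refine Finset.measurable_sum _ fun α hα => Measurable.pow_const ?_ _
    have hm : Measurable fun z => ‖f α z‖ₑ ^ r := (hf i α hα).measurable.enorm.pow_const _
    exact (hCVA m _ (kw m R) (kw m R) hm (measurable_kw m R) (measurable_kw m R)).2.2.1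
  have hpt : ∀ x, ∏ i, (Sq q x i) ^ e ≤
      (∏ i, (Sq 2 x i) ^ e) ^ (1 - κ) * (∏ i, (Sq p x i) ^ e) ^ κ := by
    intro x
    rw [← prod_rpow_fin _ _ h1k, ← prod_rpow_fin _ _ h0, ← Finset.prod_mul_distrib]
    refine Finset.prod_le_prod' fun i _ => ?_
    refine (ENNReal.rpow_le_rpow (hsum x i) he0).trans (le_of_eq ?_)
    rw [ENNReal.mul_rpow_of_nonneg _ _ he0, ← ENNReal.rpow_mul, ← ENNReal.rpow_mul,
      ← ENNReal.rpow_mul, ← ENNReal.rpow_mul, mul_comm (1 - κ) e, mul_comm κ e]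
  have h3 := ENNReal.lintegral_mul_norm_pow_le (μ := (volume : Measure (X m)))
    (hmeas 2).aemeasurable (hmeas p).aemeasurable h1k h0 (by ring)
  exact (lintegral_mono hpt).trans h3

end Pool.Agent.H69.BD
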